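import Pool.Agent.helper47.MSW.SpecA
import Pool.Agent.helper47.MSW.SpecC

set_option autoImplicit false

namespace Pool.Agent.MSW

open Equiv Finset Function MeasureTheory Pool.Agent.helper48.PP
open Pool.Agent.DSW (Pr Has GP wt)
open scoped ENNReal Classical

noncomputable section

theorem GST_sub {a b a' b' c : Pt} (h1 : a' ≤ a) (h2 : b ≤ b') (hc : c ∈ box a b) :
    c ∈ box a' b' := by
  rw [mem_box] at hc ⊢
  exact ⟨⟨le_trans h1.1 hc.1.1, le_trans h1.2 hc.1.2⟩,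
    ⟨lt_of_lt_of_le hc.2.1 h2.1, lt_of_lt_of_le hc.2.2 h2.2⟩⟩

theorem GST_z (z : Pt) : (0 : Pt) ≤ z := ⟨Nat.zero_le _, Nat.zero_le _⟩

theorem GST_X (hHLA : HLA_stmt) (hHMN : HMN_stmt) (X Y : List Pat) (ω ω' : Om) (w : Pt)
    (h : ∀ c ∈ box 0 w, ¬ inG X Y ω w c → ω c = ω' c) (z : Pt) (hz : z ≤ w) :
    HL X ω 0 z ↔ HL X ω' 0 z := by
  obtain ⟨hL1, hL2, hL3, hL4, -⟩ := hHLA
  obtain ⟨hM1, hM2, -⟩ := hHMN
  constructor
  · intro hX
    obtain ⟨p, hpz, hp⟩ := hM1 X ω z hX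
    have hag : ∀ c ∈ box 0 p, ω c = ω' c := by
      intro c hc
      refine h c (GST_sub le_rfl (le_trans hpz hz) hc) ?_
      rintro ⟨p', q', hp', hq', hcb⟩
      rw [mem_box] at hc hcb
      have h1 : p' ≤ p := ⟨le_trans hcb.1.1 hc.2.1.le, le_trans hcb.1.2 hc.2.2.le⟩
      have h2 := hM2 X ω p' p hp' hp h1
      subst h2
      exact absurd hc.2.1 (not_lt.mpr hcb.1.1)
    have h3 : HL X ω' 0 p := (hL4 X 0 p ω ω' hag).mp hp.1
    exact hL3 X ω' 0 0 p z le_rfl hpz h3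
  · intro hX
    obtain ⟨p, hpz, hp⟩ := hM1 X ω' z hX
    by_cases hc : ∃ c ∈ box 0 p, inG X Y ω w c
    · obtain ⟨c, hc, p', q', hp', hq', hcb⟩ := hc
      rw [mem_box] at hc hcb
      have h1 : p' ≤ p := ⟨le_trans hcb.1.1 hc.2.1.le, le_trans hcb.1.2 hc.2.2.le⟩
      exact hL3 X ω 0 0 p' z le_rfl (le_trans h1 hpz) hp'.1
    · push Not at hc
      have hag : ∀ c ∈ box 0 p, ω c = ω' c := fun c hc' =>
        h c (GST_sub le_rfl (le_trans hpz hz) hc') (hc c hc')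
      have h3 : HL X ω 0 p := (hL4 X 0 p ω ω' hag).mpr hp.1
      exact hL3 X ω 0 0 p z le_rfl hpz h3

theorem GST_Y (hHLA : HLA_stmt) (hHMN : HMN_stmt) (X Y : List Pat) (ω ω' : Om) (w : Pt)
    (h : ∀ c ∈ box 0 w, ¬ inG X Y ω w c → ω c = ω' c) (q : Pt) :
    HL Y ω q w ↔ HL Y ω' q w := by
  obtain ⟨hL1, hL2, hL3, hL4, -⟩ := hHLA
  obtain ⟨-, -, -, hM4, hM5, hM6, -, -⟩ := hHMN
  constructor
  · intro hY
    obtain ⟨p, hpz, hp⟩ := hM4 Y ω q w hY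
    have hag : ∀ c ∈ box p w, ω c = ω' c := by
      intro c hc
      refine h c (GST_sub (GST_z p) le_rfl hc) ?_
      rintro ⟨p', q', hp', hq', hcb⟩
      rw [mem_box] at hc hcb
      have h1 : p ≤ q' := ⟨le_trans hc.1.1 hcb.2.1.le, le_trans hc.1.2 hcb.2.2.le⟩
      have h2 := hM6 Y ω w p q' hp hq' h1
      subst h2
      exact absurd hcb.2.1 (not_lt.mpr hc.1.1)
    have h3 : HL Y ω' p w := (hL4 Y p w ω ω' hag).mp hp.1
    exact hL3 Y ω' p q w w hpz le_rfl h3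
  · intro hY
    obtain ⟨p, hpz, hp⟩ := hM4 Y ω' q w hY
    by_cases hc : ∃ c ∈ box p w, inG X Y ω w c
    · obtain ⟨c, hc, p', q', hp', hq', hcb⟩ := hc
      rw [mem_box] at hc hcb
      have h1 : p ≤ q' := ⟨le_trans hc.1.1 hcb.2.1.le, le_trans hc.1.2 hcb.2.2.le⟩
      exact hL3 Y ω q' q w w (le_trans hpz h1) le_rfl hq'.1
    · push Not at hc
      have hag : ∀ c ∈ box p w, ω c = ω' c := fun c hc' =>
        h c (GST_sub (GST_z p) le_rfl hc') (hc c hc')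
      have h3 : HL Y ω p w := (hL4 Y p w ω ω' hag).mpr hp.1
      exact hL3 Y ω p q w w hpz le_rfl h3

theorem GST (hHLA : HLA_stmt) (hHMN : HMN_stmt) : GST_stmt := by
  intro X Y ω ω' w h
  have hX := GST_X hHLA hHMN X Y ω ω' w h
  have hY := GST_Y hHLA hHMN X Y ω ω' w h
  have hA : ∀ z, z ≤ w → (mnU X ω z ↔ mnU X ω' z) := by
    intro z hz
    unfold mnU
    refine and_congr (hX z hz) ⟨fun H z' h1 h2 => H z' ((hX z' (le_trans h2 hz)).mpr h1) h2,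
      fun H z' h1 h2 => H z' ((hX z' (le_trans h2 hz)).mp h1) h2⟩
  have hB : ∀ q, mxV Y ω w q ↔ mxV Y ω' w q := by
    intro q
    unfold mxV
    refine and_congr (hY q) ⟨fun H z' h1 h2 => H z' ((hY z').mpr h1) h2,
      fun H z' h1 h2 => H z' ((hY z').mp h1) h2⟩
  have hM5 : ∀ (Y : List Pat) (ω : Om) (w q : Pt), mxV Y ω w q → q ≤ w := hHMN.2.2.2.2.1
  have hpw : ∀ (η : Om) (p q c : Pt), mxV Y η w q → c ∈ box p q → p ≤ w := by
    intro η p q c hq hc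
    rw [mem_box] at hc
    have h1 := hM5 Y η w q hq
    exact ⟨le_trans hc.1.1 (le_trans hc.2.1.le h1.1), le_trans hc.1.2 (le_trans hc.2.2.le h1.2)⟩
  refine ⟨hA, hB, fun c => ⟨?_, ?_⟩⟩
  · rintro ⟨p, q, hp, hq, hc⟩
    exact ⟨p, q, (hA p (hpw ω p q c hq hc)).mp hp, (hB q).mp hq, hc⟩
  · rintro ⟨p, q, hp, hq, hc⟩
    exact ⟨p, q, (hA p (hpw ω' p q c hq hc)).mpr hp, (hB q).mpr hq, hc⟩

end

end Pool.Agent.MSW
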